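import Mathlib
import Pool.Agent.H.MP_510a26_co.Fam

namespace Pool.Agent.Results.MP_11217e_co.Twelve

open Pool.Agent.H.MP_510a26_co

theorem result (k : ℕ) (hk : Odd k) :
    ¬ 8 ∣ 12 * k ∧ ∃ L : Fin (12 * k) → Fin (12 * k) → Fin (12 * k), Latin L ∧ Homog 4 L := by
  obtain ⟨m, rfl⟩ := hk
  refine ⟨by omega, ?_⟩
  have h2 : IsUnit (2 : ZMod 3) := IsUnit.of_mul_eq_one 2 (by decide)
  obtain ⟨L, _, a1, _, _, a4, _⟩ := good_odd (ZMod 3) h2
  have h3 : IsUnit (2 : ZMod (2 * m + 1)) := by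
    refine IsUnit.of_mul_eq_one ((m : ZMod (2 * m + 1)) + 1) ?_
    have := ZMod.natCast_self (2 * m + 1)
    push_cast at this
    linear_combination this
  have b1 : Latin (fun r c : ZMod (2 * m + 1) => r + c) :=
    ⟨fun r => (Equiv.addLeft r).bijective, fun c => (Equiv.addRight c).bijective⟩
  have b2 : Cnt 1 (fun r c : ZMod (2 * m + 1) => r + c) := by
    intro r c
    have : S (fun r c : ZMod (2 * m + 1) => r + c) r c = {(r, c)} := by
      ext ⟨a, b⟩
      simp only [S, Set.mem_ofPred_eq, Set.mem_singleton_iff, Prod.mk.injEq]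
      constructor
      · rintro ⟨e1, e2⟩
        have ha : a = r := by
          rw [← h3.mul_right_inj]
          linear_combination -e1 - e2
        subst ha
        exact ⟨rfl, by linear_combination -e1⟩
      · rintro ⟨rfl, rfl⟩
        exact ⟨rfl, rfl⟩
    rw [this, Set.ncard_singleton]
  have e : Fin (12 * (2 * m + 1)) ≃ (V × ZMod 3) × ZMod (2 * m + 1) :=
    Fintype.equivOfCardEq (by simp)
  have c1 := latin_iso (latin_prod a1 b1) e e e
  exact ⟨_, c1, homog_of_cnt c1 (cnt_iso (cnt_prod a4 b2) e e e)⟩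

end Pool.Agent.Results.MP_11217e_co.Twelve
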